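import Pool.Agent.Helper71.CE.Join

/-!
# Lower bound for the critical exponent: exponents in `(m, m+1)` fail
-/

open Finset

namespace Pool.Agent.Helper71.CE

/-- Taylor expansion of `(1 + y) ^ β` at `0` with a uniform remainder on `[0,1]` -/
theorem taylor_rpow (β : ℝ) (m : ℕ) : ∃ (c : ℕ → ℝ) (C : ℝ), c 0 = 1 ∧ 0 ≤ C ∧
    ∀ y ∈ Set.Icc (0 : ℝ) 1,
      |(1 + y) ^ β - ∑ k ∈ range (m + 1), c k * y ^ k| ≤ C * y ^ (m + 1) := by
  have hf : ContDiffOn ℝ (m + 1) (fun y : ℝ => (1 + y) ^ β) (Set.Icc 0 1) := by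
    refine ContDiffOn.rpow_const_of_ne (by fun_prop) fun y hy => ?_
    have := hy.1
    positivity
  obtain ⟨C, hC⟩ := exists_taylor_mean_remainder_bound (zero_le_one' ℝ) hf
  refine ⟨fun k => ((k.factorial : ℝ)⁻¹) *
    iteratedDerivWithin k (fun y : ℝ => (1 + y) ^ β) (Set.Icc 0 1) 0, |C|, ?_, abs_nonneg _, ?_⟩
  · simp
  · intro y hy
    have h := hC y hy
    rw [taylor_within_apply, Real.norm_eq_abs, sub_zero] at h
    have e : ∑ k ∈ range (m + 1), ((k.factorial : ℝ)⁻¹) *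
        iteratedDerivWithin k (fun y : ℝ => (1 + y) ^ β) (Set.Icc 0 1) 0 * y ^ k =
        ∑ k ∈ range (m + 1), (((k.factorial : ℝ)⁻¹) * y ^ k) •
          iteratedDerivWithin k (fun y : ℝ => (1 + y) ^ β) (Set.Icc 0 1) 0 := by
      refine Finset.sum_congr rfl fun k _ => ?_
      rw [smul_eq_mul]; ring
    rw [e]
    exact h.trans (mul_le_mul_of_nonneg_right (le_abs_self C) (pow_nonneg hy.1 _))

open Polynomial in
/-- the polynomial `∏_{k=1}^m (X - 2^k)` -/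
noncomputable def nodePoly (m : ℕ) : ℝ[X] := ∏ k ∈ range m, (X - C ((2 : ℝ) ^ (k + 1)))

open Polynomial in
theorem nodePoly_natDegree (m : ℕ) : (nodePoly m).natDegree = m := by
  rw [nodePoly, natDegree_prod_of_monic _ _ fun k _ => monic_X_sub_C _,
    Finset.sum_congr rfl fun k _ => natDegree_X_sub_C _]
  simp

open Polynomial in
theorem nodePoly_eval (m : ℕ) (x : ℝ) :
    ∑ i : Fin (m + 1), (nodePoly m).coeff i * x ^ (i : ℕ) = (nodePoly m).eval x := by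
  rw [eval_eq_sum_range, nodePoly_natDegree, Finset.sum_range]

open Polynomial in
theorem nodePoly_root {m k : ℕ} (hk1 : 1 ≤ k) (hk : k ≤ m) :
    (nodePoly m).eval ((2 : ℝ) ^ k) = 0 := by
  rw [nodePoly, eval_prod]
  refine Finset.prod_eq_zero (i := k - 1) (by simp; omega) ?_
  rw [Nat.sub_add_cancel hk1]; simp

open Polynomial in
theorem nodePoly_ne {m : ℕ} {β : ℝ} (h1 : (m : ℝ) < β) :
    (nodePoly m).eval ((2 : ℝ) ^ β) ≠ 0 := by
  rw [nodePoly, eval_prod, Finset.prod_ne_zero_iff]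
  intro k hk
  rw [eval_sub, eval_X, eval_C, sub_ne_zero]
  have hk' : (k : ℝ) + 1 ≤ m := by exact_mod_cast Finset.mem_range.1 hk
  have : (2 : ℝ) ^ ((k : ℝ) + 1) < (2 : ℝ) ^ β :=
    Real.rpow_lt_rpow_of_exponent_lt one_lt_two (by linarith)
  have e : (2 : ℝ) ^ ((k : ℝ) + 1) = (2 : ℝ) ^ (k + 1) := by
    rw [← Real.rpow_natCast]; push_cast; rfl
  rw [e] at this
  exact this.ne'

/-- the analytic core: a small perturbation of rank one destroys positivity of the power -/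
theorem exists_not_psd {m : ℕ} {β : ℝ} (h1 : (m : ℝ) < β) (h2 : β < m + 1) :
    ∃ s : Fin (m + 1) → ℝ, (∀ i, 0 < s i) ∧
      ¬ Psd (fun i j => (1 + s i * s j) ^ β - 1 - s i ^ β * s j ^ β) := by
  obtain ⟨c, C, hc0, hC0, hC⟩ := taylor_rpow β m
  set z : Fin (m + 1) → ℝ := fun i => (nodePoly m).coeff i with hz
  set P : ℝ := (nodePoly m).eval ((2 : ℝ) ^ β) with hP
  have hP0 : P ≠ 0 := nodePoly_ne h1
  set S : ℝ := ∑ i : Fin (m + 1), |z i| * ((2 : ℝ) ^ (i : ℕ)) ^ (m + 1) with hS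
  have hS0 : 0 ≤ S := by positivity
  have hβ0 : 0 < β := lt_of_le_of_lt (Nat.cast_nonneg m) h1
  have he : 0 < (m : ℝ) + 1 - β := by linarith
  -- choose `δ`
  obtain ⟨δ, hδ0, hδ1, hδ2⟩ : ∃ δ : ℝ, 0 < δ ∧ δ * 4 ^ m ≤ 1 ∧
      δ ^ ((m : ℝ) + 1 - β) * (C * S ^ 2) < P ^ 2 := by
    have hlim : Filter.Tendsto (fun δ : ℝ => δ ^ ((m : ℝ) + 1 - β) * (C * S ^ 2))
        (nhdsWithin 0 (Set.Ioi 0)) (nhds 0) := by
      have h := ((Real.continuous_rpow_const he.le).tendsto (0 : ℝ)).mul_const (C * S ^ 2)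
      rw [Real.zero_rpow he.ne', zero_mul] at h
      exact h.mono_left nhdsWithin_le_nhds
    have hP2 : 0 < P ^ 2 := by positivity
    have ev1 := (hlim.eventually (gt_mem_nhds hP2))
    have ev2 : ∀ᶠ δ : ℝ in nhdsWithin 0 (Set.Ioi 0), δ * 4 ^ m ≤ 1 := by
      have hl : Filter.Tendsto (fun δ : ℝ => δ * 4 ^ m) (nhdsWithin 0 (Set.Ioi 0)) (nhds 0) := by
        have h := (continuous_id.tendsto (0 : ℝ)).mul_const ((4 : ℝ) ^ m)
        rw [id, zero_mul] at h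
        exact h.mono_left nhdsWithin_le_nhds
      exact (hl.eventually (gt_mem_nhds one_pos)).mono fun δ hδ => hδ.le
    obtain ⟨δ, hδ⟩ := ((ev1.and ev2).and self_mem_nhdsWithin).exists
    exact ⟨δ, hδ.2, hδ.1.2, hδ.1.1⟩
  have hr : 0 < √δ := Real.sqrt_pos.2 hδ0
  have hrr : √δ * √δ = δ := Real.mul_self_sqrt hδ0.le
  refine ⟨fun i => √δ * 2 ^ (i : ℕ), fun i => by positivity, fun hpsd => ?_⟩
  have hq := hpsd.2 z
  -- rewrite the quadratic form
  have hs : ∀ i j : Fin (m + 1), (√δ * 2 ^ (i : ℕ)) * (√δ * 2 ^ (j : ℕ)) =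
      δ * (2 ^ (i : ℕ) * 2 ^ (j : ℕ)) := by
    intro i j
    calc (√δ * 2 ^ (i : ℕ)) * (√δ * 2 ^ (j : ℕ)) = (√δ * √δ) * (2 ^ (i : ℕ) * 2 ^ (j : ℕ)) := by ring
      _ = _ := by rw [hrr]
  have hy : ∀ i j : Fin (m + 1), δ * (2 ^ (i : ℕ) * 2 ^ (j : ℕ)) ∈ Set.Icc (0 : ℝ) 1 := by
    intro i j
    refine ⟨by positivity, ?_⟩
    have hi : (2 : ℝ) ^ (i : ℕ) ≤ 2 ^ m := pow_le_pow_right₀ one_le_two (by omega)
    have hj : (2 : ℝ) ^ (j : ℕ) ≤ 2 ^ m := pow_le_pow_right₀ one_le_two (by omega)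
    have h4 : (4 : ℝ) ^ m = 2 ^ m * 2 ^ m := by rw [← mul_pow]; norm_num
    rw [h4] at hδ1
    refine le_trans ?_ hδ1
    exact mul_le_mul_of_nonneg_left (mul_le_mul hi hj (by positivity) (by positivity)) hδ0.le
  -- the power term
  have hpow : ∀ i j : Fin (m + 1), (√δ * 2 ^ (i : ℕ)) ^ β * (√δ * 2 ^ (j : ℕ)) ^ β =
      δ ^ β * (((2 : ℝ) ^ β) ^ (i : ℕ) * ((2 : ℝ) ^ β) ^ (j : ℕ)) := by
    intro i j
    have e : ∀ l : ℕ, ((2 : ℝ) ^ l) ^ β = ((2 : ℝ) ^ β) ^ l := by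
      intro l
      rw [← Real.rpow_natCast, ← Real.rpow_natCast, ← Real.rpow_mul zero_le_two,
        ← Real.rpow_mul zero_le_two, mul_comm]
    rw [← Real.mul_rpow (by positivity) (by positivity), hs, Real.mul_rpow hδ0.le (by positivity),
      Real.mul_rpow (by positivity) (by positivity), e, e]
  -- sums of powers against `z`
  have hsum : ∀ x : ℝ, ∑ i, z i * x ^ (i : ℕ) = (nodePoly m).eval x := fun x => nodePoly_eval m x
  -- bound of the quadratic form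
  have key : qf (fun i j : Fin (m + 1) => (1 + (√δ * 2 ^ (i : ℕ)) * (√δ * 2 ^ (j : ℕ))) ^ β - 1 -
      (√δ * 2 ^ (i : ℕ)) ^ β * (√δ * 2 ^ (j : ℕ)) ^ β) z ≤
      C * δ ^ (m + 1) * S ^ 2 - δ ^ β * P ^ 2 := by
    have hsplit : qf (fun i j : Fin (m + 1) => (1 + (√δ * 2 ^ (i : ℕ)) * (√δ * 2 ^ (j : ℕ))) ^ β - 1 -
        (√δ * 2 ^ (i : ℕ)) ^ β * (√δ * 2 ^ (j : ℕ)) ^ β) z =
        (∑ i : Fin (m + 1), ∑ j : Fin (m + 1), z i * ((1 + δ * (2 ^ (i : ℕ) * 2 ^ (j : ℕ))) ^ β -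
          ∑ k ∈ range (m + 1), c k * (δ * (2 ^ (i : ℕ) * 2 ^ (j : ℕ))) ^ k) * z j) +
        (∑ i : Fin (m + 1), ∑ j : Fin (m + 1), z i * ((∑ k ∈ range (m + 1), c k * (δ * (2 ^ (i : ℕ) * 2 ^ (j : ℕ))) ^ k) - 1)
          * z j) - ∑ i : Fin (m + 1), ∑ j : Fin (m + 1), z i * (δ ^ β * (((2 : ℝ) ^ β) ^ (i : ℕ) *
            ((2 : ℝ) ^ β) ^ (j : ℕ))) * z j := by
      simp only [qf]
      rw [← Finset.sum_add_distrib, ← Finset.sum_sub_distrib]
      refine Finset.sum_congr rfl fun i _ => ?_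
      rw [← Finset.sum_add_distrib, ← Finset.sum_sub_distrib]
      refine Finset.sum_congr rfl fun j _ => ?_
      rw [hpow, hs]
      ring
    have hA : (∑ i : Fin (m + 1), ∑ j : Fin (m + 1), z i * ((1 + δ * (2 ^ (i : ℕ) * 2 ^ (j : ℕ))) ^ β -
        ∑ k ∈ range (m + 1), c k * (δ * (2 ^ (i : ℕ) * 2 ^ (j : ℕ))) ^ k) * z j) ≤
        C * δ ^ (m + 1) * S ^ 2 := by
      have e : C * δ ^ (m + 1) * S ^ 2 = ∑ i : Fin (m + 1), ∑ j : Fin (m + 1),
          |z i| * (C * (δ * (2 ^ (i : ℕ) * 2 ^ (j : ℕ))) ^ (m + 1)) * |z j| := by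
        rw [sq, hS, Finset.sum_mul_sum, Finset.mul_sum]
        refine Finset.sum_congr rfl fun i _ => ?_
        rw [Finset.mul_sum]
        refine Finset.sum_congr rfl fun j _ => ?_
        rw [mul_pow δ, mul_pow]
        ring
      rw [e]
      refine Finset.sum_le_sum fun i _ => Finset.sum_le_sum fun j _ => ?_
      refine (le_abs_self _).trans ?_
      rw [abs_mul, abs_mul]
      refine mul_le_mul_of_nonneg_right ?_ (abs_nonneg _)
      exact mul_le_mul_of_nonneg_left (hC _ (hy i j)) (abs_nonneg _)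
    have hB : (∑ i : Fin (m + 1), ∑ j : Fin (m + 1), z i * ((∑ k ∈ range (m + 1),
        c k * (δ * (2 ^ (i : ℕ) * 2 ^ (j : ℕ))) ^ k) - 1) * z j) = 0 := by
      have e : ∀ i j : Fin (m + 1), z i * ((∑ k ∈ range (m + 1),
          c k * (δ * (2 ^ (i : ℕ) * 2 ^ (j : ℕ))) ^ k) - 1) * z j =
          ∑ k ∈ range m, c (k + 1) * δ ^ (k + 1) *
            ((z i * ((2 : ℝ) ^ (k + 1)) ^ (i : ℕ)) * (z j * ((2 : ℝ) ^ (k + 1)) ^ (j : ℕ))) := by
        intro i j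
        rw [Finset.sum_range_succ', pow_zero, hc0, mul_one, add_sub_cancel_right, Finset.mul_sum,
          Finset.sum_mul]
        refine Finset.sum_congr rfl fun k _ => ?_
        rw [mul_pow, mul_pow, ← pow_mul, ← pow_mul, ← pow_mul, ← pow_mul, mul_comm (i : ℕ) (k + 1),
          mul_comm (j : ℕ) (k + 1)]
        ring
      rw [Finset.sum_congr rfl fun i _ => Finset.sum_congr rfl fun j _ => e i j]
      rw [Finset.sum_congr rfl fun i _ => Finset.sum_comm, Finset.sum_comm]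
      refine Finset.sum_eq_zero fun k hk => ?_
      have h0 := hsum ((2 : ℝ) ^ (k + 1))
      rw [nodePoly_root (by omega) (by have := Finset.mem_range.1 hk; omega)] at h0
      rw [Finset.sum_congr rfl fun i _ => (Finset.mul_sum _ _ _).symm, ← Finset.mul_sum]
      rw [← Finset.sum_mul_sum, h0]
      ring
    have hD : (∑ i : Fin (m + 1), ∑ j : Fin (m + 1), z i * (δ ^ β * (((2 : ℝ) ^ β) ^ (i : ℕ) *
        ((2 : ℝ) ^ β) ^ (j : ℕ))) * z j) = δ ^ β * P ^ 2 := by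
      rw [sq, hP, ← hsum, Finset.sum_mul_sum, Finset.mul_sum]
      refine Finset.sum_congr rfl fun i _ => ?_
      rw [Finset.mul_sum]
      refine Finset.sum_congr rfl fun j _ => by ring
    rw [hsplit, hB, hD]
    linarith
  have hlt : C * δ ^ (m + 1) * S ^ 2 - δ ^ β * P ^ 2 < 0 := by
    have e : δ ^ (m + 1) = δ ^ β * δ ^ ((m : ℝ) + 1 - β) := by
      rw [← Real.rpow_add hδ0, ← Real.rpow_natCast]
      congr 1; push_cast; ring
    rw [e]
    have hδβ : 0 < δ ^ β := Real.rpow_pos_of_pos hδ0 β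
    have : C * (δ ^ β * δ ^ ((m : ℝ) + 1 - β)) * S ^ 2 - δ ^ β * P ^ 2 =
        δ ^ β * (δ ^ ((m : ℝ) + 1 - β) * (C * S ^ 2) - P ^ 2) := by ring
    rw [this]
    exact mul_neg_of_pos_of_neg hδβ (by linarith)
  linarith

end Pool.Agent.Helper71.CE
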