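import Mathlib

/-!
# Entrywise powers preserving positive semidefiniteness: basic tools
-/

open Finset

namespace Pool.Agent.Helper71.CE

variable {V W : Type*} [Fintype V] [Fintype W]

/-- the power `a ^ β` with the convention `0 ^ β = 0` for every `β` -/
noncomputable def pw (β a : ℝ) : ℝ := if a = 0 then 0 else a ^ β

/-- the entrywise power of a matrix with nonnegative entries -/
noncomputable def hpow {V : Type*} (A : V → V → ℝ) (β : ℝ) : V → V → ℝ :=
  fun i j => pw β (A i j)

/-- quadratic form -/
def qf (A : V → V → ℝ) (x : V → ℝ) : ℝ := ∑ i, ∑ j, x i * A i j * x j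

/-- real symmetric positive semidefinite matrices, by the quadratic form -/
def Psd (A : V → V → ℝ) : Prop := (∀ i j, A i j = A j i) ∧ ∀ x : V → ℝ, 0 ≤ qf A x

theorem psd_iff (A : V → V → ℝ) : Psd A ↔ (Matrix.of A).PosSemidef := by
  classical
  constructor
  · rintro ⟨h1, h2⟩
    refine Matrix.PosSemidef.of_dotProduct_mulVec_nonneg ?_ fun x => ?_
    · ext i j
      simpa using h1 j i
    · have := h2 x
      simp only [qf] at this
      simp only [dotProduct, Matrix.mulVec, Pi.star_apply, star_trivial, Finset.mul_sum]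
      simpa [mul_assoc] using this
  · intro h
    refine ⟨fun i j => ?_, fun x => ?_⟩
    · have := congrFun (congrFun h.1 j) i
      simpa using this
    · have := h.dotProduct_mulVec_nonneg x
      simp only [dotProduct, Matrix.mulVec, Pi.star_apply, star_trivial, Finset.mul_sum] at this
      simp only [qf]
      simpa [mul_assoc] using this

theorem Psd.hadamard {A B : V → V → ℝ} (hA : Psd A) (hB : Psd B) :
    Psd (fun i j => A i j * B i j) := by
  classical
  exact (psd_iff _).2 (((psd_iff A).1 hA).hadamard ((psd_iff B).1 hB))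

theorem qf_add (A B : V → V → ℝ) (x : V → ℝ) :
    qf (fun i j => A i j + B i j) x = qf A x + qf B x := by
  simp only [qf, ← Finset.sum_add_distrib]
  refine Finset.sum_congr rfl fun i _ => Finset.sum_congr rfl fun j _ => by ring

theorem Psd.add {A B : V → V → ℝ} (hA : Psd A) (hB : Psd B) :
    Psd (fun i j => A i j + B i j) :=
  ⟨fun i j => by show A i j + B i j = A j i + B j i; rw [hA.1, hB.1],
    fun x => by rw [qf_add]; exact add_nonneg (hA.2 x) (hB.2 x)⟩

theorem psd_rankOne (h : V → ℝ) : Psd (fun i j => h i * h j) := by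
  refine ⟨fun i j => mul_comm _ _, fun x => ?_⟩
  have : qf (fun i j => h i * h j) x = (∑ i, x i * h i) ^ 2 := by
    rw [sq, Finset.sum_mul_sum]
    simp only [qf]
    refine Finset.sum_congr rfl fun i _ => Finset.sum_congr rfl fun j _ => by ring
  rw [this]
  positivity

theorem Psd.submatrix {A : V → V → ℝ} (hA : Psd A) (e : W → V) :
    Psd (fun i j => A (e i) (e j)) := by
  classical
  exact (psd_iff _).2 (((psd_iff A).1 hA).submatrix e)

theorem Psd.diag_nonneg {A : V → V → ℝ} (hA : Psd A) (i : V) : 0 ≤ A i i := by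
  classical
  have := hA.2 (Pi.single i 1)
  simpa [qf, Pi.single_apply] using this

theorem Psd.minor {A : V → V → ℝ} (hA : Psd A) (i j : V) : A i j ^ 2 ≤ A i i * A j j := by
  have h := (hA.submatrix ![i, j]).2
  have hs : A j i = A i j := hA.1 j i
  have hi := hA.diag_nonneg i
  have hj := hA.diag_nonneg j
  have h1 : ∀ s t : ℝ, 0 ≤ s ^ 2 * A i i + 2 * s * t * A i j + t ^ 2 * A j j := by
    intro s t
    have := h ![s, t]
    simp [qf, Fin.sum_univ_two, hs] at this
    nlinarith [this]
  rcases hi.eq_or_lt with h0 | h0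
  · -- `A i i = 0`
    rcases hj.eq_or_lt with h0' | h0'
    · have a1 := h1 1 1
      have a2 := h1 1 (-1)
      rw [← h0, ← h0'] at a1 a2
      have : A i j = 0 := by linarith
      rw [this, ← h0]; simp
    · have := h1 (A j j) (-A i j)
      rw [← h0] at this ⊢
      nlinarith
  · have := h1 (A i j) (-A i i)
    nlinarith

/-! ## Schur complements with respect to one vertex -/

theorem qf_option (A : Option V → Option V → ℝ) (hs : ∀ i j, A i j = A j i)
    (x : Option V → ℝ) :
    qf A x = x none ^ 2 * A none none + 2 * x none * (∑ i, x (some i) * A (some i) none) +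
      qf (fun i j => A (some i) (some j)) (fun i => x (some i)) := by
  simp only [qf, Fintype.sum_option]
  have h1 : ∑ j, x none * A none (some j) * x (some j) =
      x none * ∑ i, x (some i) * A (some i) none := by
    rw [Finset.mul_sum]
    refine Finset.sum_congr rfl fun i _ => ?_
    rw [hs none (some i)]; ring
  have h2 : ∑ i, (x (some i) * A (some i) none * x none + ∑ j, x (some i) * A (some i) (some j) *
      x (some j)) = x none * (∑ i, x (some i) * A (some i) none) +
      ∑ i, ∑ j, x (some i) * A (some i) (some j) * x (some j) := by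
    rw [Finset.sum_add_distrib, Finset.mul_sum]
    congr 1
    refine Finset.sum_congr rfl fun i _ => by ring
  rw [h1, h2]
  ring

/-- Schur complement with respect to the vertex `none` -/
noncomputable def schur (A : Option V → Option V → ℝ) : V → V → ℝ :=
  fun i j => A (some i) (some j) - A (some i) none * A (some j) none / A none none

theorem qf_schur (A : Option V → Option V → ℝ) (hs : ∀ i j, A i j = A j i)
    (h0 : 0 < A none none) (x : Option V → ℝ) :
    qf A x = A none none * (x none + (∑ i, x (some i) * A (some i) none) / A none none) ^ 2 +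
      qf (schur A) (fun i => x (some i)) := by
  rw [qf_option A hs x]
  have h1 : qf (schur A) (fun i => x (some i)) =
      qf (fun i j => A (some i) (some j)) (fun i => x (some i)) -
        (∑ i, x (some i) * A (some i) none) ^ 2 / A none none := by
    simp only [qf, schur]
    rw [sq, Finset.sum_mul_sum, Finset.sum_div, ← Finset.sum_sub_distrib]
    refine Finset.sum_congr rfl fun i _ => ?_
    rw [Finset.sum_div, ← Finset.sum_sub_distrib]
    refine Finset.sum_congr rfl fun j _ => ?_
    ring
  rw [h1]
  field_simp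
  ring

theorem psd_schur {A : Option V → Option V → ℝ} (hA : Psd A) (h0 : 0 < A none none) :
    Psd (schur A) := by
  refine ⟨fun i j => ?_, fun x => ?_⟩
  · simp only [schur]
    rw [hA.1 (some i) (some j)]; ring
  · have := hA.2 (fun o => o.elim (-(∑ i, x i * A (some i) none) / A none none) x)
    rw [qf_schur A hA.1 h0] at this
    simpa [neg_div] using this

theorem psd_of_schur {A : Option V → Option V → ℝ} (hs : ∀ i j, A i j = A j i)
    (h0 : 0 < A none none) (h : Psd (schur A)) : Psd A := by
  refine ⟨hs, fun x => ?_⟩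
  rw [qf_schur A hs h0]
  have := h.2 fun i => x (some i)
  positivity

/-- if the diagonal entry at `none` vanishes, the matrix is the zero extension of its block -/
theorem psd_of_none_zero {A : Option V → Option V → ℝ} (hs : ∀ i j, A i j = A j i)
    (h0 : A none none = 0) (h1 : ∀ i, A (some i) none = 0)
    (h : Psd (fun i j => A (some i) (some j))) : Psd A := by
  refine ⟨hs, fun x => ?_⟩
  rw [qf_option A hs]
  simp only [h0, h1, mul_zero, Finset.sum_const_zero, zero_add]
  exact h.2 _

theorem Psd.none_zero {A : Option V → Option V → ℝ} (hA : Psd A) (h0 : A none none = 0)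
    (i : V) : A (some i) none = 0 := by
  have := hA.minor (some i) none
  rw [h0, mul_zero] at this
  exact pow_eq_zero_iff (two_ne_zero) |>.1 (le_antisymm this (sq_nonneg _))

/-! ## powers -/

theorem pw_zero (β : ℝ) : pw β 0 = 0 := by simp [pw]

theorem pw_of_pos {β a : ℝ} (ha : 0 < a) : pw β a = a ^ β := by simp [pw, ha.ne']

theorem pw_pos {β a : ℝ} (ha : 0 < a) : 0 < pw β a := by
  rw [pw_of_pos ha]; exact Real.rpow_pos_of_pos ha β

theorem pw_nonneg {β a : ℝ} (ha : 0 ≤ a) : 0 ≤ pw β a := by
  rcases ha.eq_or_lt with h | h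
  · rw [← h, pw_zero]
  · exact (pw_pos h).le

theorem pw_mul {β a b : ℝ} (ha : 0 ≤ a) (hb : 0 ≤ b) : pw β (a * b) = pw β a * pw β b := by
  rcases ha.eq_or_lt with h | h
  · rw [← h, zero_mul, pw_zero, zero_mul]
  rcases hb.eq_or_lt with h' | h'
  · rw [← h', mul_zero, pw_zero, mul_zero]
  rw [pw_of_pos (mul_pos h h'), pw_of_pos h, pw_of_pos h', Real.mul_rpow ha hb]

theorem pw_div {β a b : ℝ} (ha : 0 ≤ a) (hb : 0 < b) : pw β (a / b) = pw β a / pw β b := by
  have h : pw β a = pw β (a / b) * pw β b := by
    rw [← pw_mul (div_nonneg ha hb.le) hb.le, div_mul_cancel₀ _ hb.ne']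
  rw [h, mul_div_cancel_right₀ _ (pw_pos hb).ne']

theorem pw_add_one {β a : ℝ} (ha : 0 ≤ a) : pw β a = pw (β - 1) a * a := by
  rcases ha.eq_or_lt with h | h
  · rw [← h, pw_zero, mul_zero]
  · rw [pw_of_pos h, pw_of_pos h, Real.rpow_sub_one h.ne', div_mul_cancel₀ _ h.ne']

theorem pw_mono {β a b : ℝ} (hβ : 0 ≤ β) (ha : 0 ≤ a) (hab : a ≤ b) : pw β a ≤ pw β b := by
  rcases ha.eq_or_lt with h | h
  · rw [← h, pw_zero]; exact pw_nonneg (ha.trans hab)
  · rw [pw_of_pos h, pw_of_pos (h.trans_le hab)]
    exact Real.rpow_le_rpow ha hab hβ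

theorem pw_sq {β a : ℝ} (ha : 0 ≤ a) : pw β a ^ 2 = pw β (a ^ 2) := by
  rw [sq, sq, pw_mul ha ha]

theorem pw_continuousOn {β : ℝ} (hβ : 0 < β) : ContinuousOn (pw β) (Set.Ici 0) := by
  have h : Set.EqOn (pw β) (fun a => a ^ β) (Set.Ici 0) := by
    intro a ha
    rcases (show (0 : ℝ) ≤ a from ha).eq_or_lt with h | h
    · rw [← h, pw_zero]; simp [Real.zero_rpow hβ.ne']
    · exact pw_of_pos h
  refine ContinuousOn.congr ?_ h
  exact (Real.continuous_rpow_const hβ.le).continuousOn

end Pool.Agent.Helper71.CE
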