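import Pool.Agent.Helper71.CE.FH

/-!
# Graphs for which positivity on cliques is enough, cones and joins
-/

open Finset

namespace Pool.Agent.Helper71.CE

variable {V W : Type*} [Fintype V] [Fintype W]

/-- `A` is a positive semidefinite matrix with nonnegative entries and pattern `G` -/
def InPG (G : SimpleGraph V) (A : V → V → ℝ) : Prop :=
  Psd A ∧ (∀ i j, 0 ≤ A i j) ∧ ∀ i j, i ≠ j → ¬ G.Adj i j → A i j = 0

/-- positive semidefinite on a set of vertices -/
def PsdOn (E : V → V → ℝ) (Q : Set V) : Prop := ∀ x : V → ℝ, (∀ i, i ∉ Q → x i = 0) → 0 ≤ qf E x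

/-- `G` has property `Dec`: a symmetric matrix `E` which is positive semidefinite on every clique
has a positive semidefinite Hadamard product with every member of `InPG G`.  (Equivalently: every
member of `InPG G` is a sum of positive semidefinite matrices supported on cliques.) -/
def Dec (G : SimpleGraph V) : Prop :=
  ∀ A : V → V → ℝ, InPG G A → ∀ E : V → V → ℝ, (∀ i j, E i j = E j i) →
    (∀ Q : Set V, G.IsClique Q → PsdOn E Q) → Psd (fun i j => E i j * A i j)

/-- the cone over a graph: one new vertex `none` adjacent to all others -/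
def cone {V : Type*} (G : SimpleGraph V) : SimpleGraph (Option V) where
  Adj a b := a ≠ b ∧ ∀ i ∈ a, ∀ j ∈ b, G.Adj i j
  symm := ⟨fun _ _ h => ⟨h.1.symm, fun i hi j hj => (h.2 j hj i hi).symm⟩⟩
  loopless := ⟨fun _ h => h.1 rfl⟩

theorem cone_adj_some {V : Type*} {G : SimpleGraph V} {i j : V} :
    (cone G).Adj (some i) (some j) ↔ G.Adj i j := by
  constructor
  · intro h; exact h.2 i rfl j rfl
  · intro h
    refine ⟨fun e => ?_, fun a ha b hb => ?_⟩
    · exact h.ne (Option.some_injective _ e)
    · rw [Option.mem_some_iff] at ha hb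
      rw [← ha, ← hb]; exact h

theorem cone_adj_none {V : Type*} {G : SimpleGraph V} {i : V} :
    (cone G).Adj none (some i) := by
  refine ⟨by simp, fun a ha => by simp at ha⟩

theorem InPG.block {G : SimpleGraph V} {A : Option V → Option V → ℝ} (hA : InPG (cone G) A) :
    InPG G (fun i j => A (some i) (some j)) := by
  refine ⟨hA.1.submatrix some, fun i j => hA.2.1 _ _, fun i j hij hG => hA.2.2 _ _ ?_ ?_⟩
  · exact fun e => hij (Option.some_injective _ e)
  · rwa [cone_adj_some]

theorem qf_psd_on_iff_some (E : Option V → Option V → ℝ) (hs : ∀ i j, E i j = E j i) (Q : Set V)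
    (h : PsdOn E ({none} ∪ some '' Q)) (h0 : 0 < E none none) : PsdOn (schur E) Q := by
  intro x hx
  have := h (fun o => o.elim (-(∑ i, x i * E (some i) none) / E none none) x) ?_
  · rw [qf_schur E hs h0] at this
    simpa [neg_div] using this
  · rintro (_ | i) hi
    · exact absurd (Or.inl rfl) hi
    · refine hx i fun hQ => hi (Or.inr ⟨i, hQ, rfl⟩)

theorem cone_isClique {V : Type*} {G : SimpleGraph V} {Q : Set V} (hQ : G.IsClique Q) :
    (cone G).IsClique ({none} ∪ some '' Q) := by
  rintro a ha b hb hab
  rcases ha with rfl | ⟨i, hi, rfl⟩ <;> rcases hb with rfl | ⟨j, hj, rfl⟩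
  · exact absurd rfl hab
  · exact cone_adj_none
  · exact cone_adj_none.symm
  · exact cone_adj_some.2 (hQ hi hj fun e => hab (by rw [e]))

theorem qf_single (E : V → V → ℝ) (i : V) (t : ℝ) [DecidableEq V] :
    qf E (Pi.single i t) = t ^ 2 * E i i := by
  simp only [qf, Pi.single_apply]
  simp only [ite_mul, zero_mul, mul_ite, mul_zero, Finset.sum_ite_eq', Finset.mem_univ, if_true]
  ring

theorem PsdOn.diag {E : V → V → ℝ} {Q : Set V} (h : PsdOn E Q) {i : V} (hi : i ∈ Q) :
    0 ≤ E i i := by
  classical
  have := h (Pi.single i 1) fun j hj => by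
    rw [Pi.single_apply, if_neg]; rintro rfl; exact hj hi
  rw [qf_single] at this
  linarith

theorem qf_pair (E : V → V → ℝ) (hs : ∀ i j, E i j = E j i) {i j : V} (hij : i ≠ j) (s t : ℝ)
    [DecidableEq V] :
    qf E (fun v => if v = i then s else if v = j then t else 0) =
      s ^ 2 * E i i + 2 * s * t * E i j + t ^ 2 * E j j := by
  simp only [qf]
  have h1 : ∀ F : V → ℝ, ∑ v, (if v = i then s else if v = j then t else 0) * F v =
      s * F i + t * F j := by
    intro F
    have : ∀ v, (if v = i then s else if v = j then t else 0) * F v =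
        (if v = i then s * F v else 0) + (if v = j then t * F v else 0) := by
      intro v
      by_cases h : v = i
      · subst h; simp [hij]
      · simp [h]
    rw [Finset.sum_congr rfl fun v _ => this v, Finset.sum_add_distrib]
    simp
  have h2 : ∀ u, ∑ v, (if u = i then s else if u = j then t else 0) * E u v *
      (if v = i then s else if v = j then t else 0) =
      (if u = i then s else if u = j then t else 0) * (s * E u i + t * E u j) := by
    intro u
    have := h1 (fun v => (if u = i then s else if u = j then t else 0) * E u v)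
    rw [Finset.sum_congr rfl fun v _ => mul_comm _ _, this]
    ring
  rw [Finset.sum_congr rfl fun u _ => h2 u, h1 (fun u => s * E u i + t * E u j), hs j i]
  ring

theorem PsdOn.minor {E : V → V → ℝ} (hs : ∀ i j, E i j = E j i) {Q : Set V} (h : PsdOn E Q)
    {i j : V} (hi : i ∈ Q) (hj : j ∈ Q) (hij : i ≠ j) : E i j ^ 2 ≤ E i i * E j j := by
  classical
  have hii := h.diag hi
  have hjj := h.diag hj
  have h1 : ∀ s t : ℝ, 0 ≤ s ^ 2 * E i i + 2 * s * t * E i j + t ^ 2 * E j j := by
    intro s t
    rw [← qf_pair E hs hij]
    refine h _ fun v hv => ?_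
    rw [if_neg, if_neg]
    · rintro rfl; exact hv hj
    · rintro rfl; exact hv hi
  rcases hii.eq_or_lt with h0 | h0
  · rcases hjj.eq_or_lt with h0' | h0'
    · have a1 := h1 1 1
      have a2 := h1 1 (-1)
      rw [← h0, ← h0'] at a1 a2
      have : E i j = 0 := by linarith
      rw [this, ← h0]; simp
    · have := h1 (E j j) (-E i j)
      rw [← h0] at this ⊢
      nlinarith
  · have := h1 (E i j) (-E i i)
    nlinarith

/-- bipartite graphs have property `Dec` -/
theorem dec_bipartite {G : SimpleGraph V} (c : V → Bool) (hc : ∀ i j, G.Adj i j → c i ≠ c j) :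
    Dec G := by
  classical
  intro A hA E hE hQ
  have hE0 : ∀ i, 0 ≤ E i i := fun i =>
    (hQ {i} (by simp)).diag (Set.mem_singleton i)
  have hEm : ∀ i j, i ≠ j → G.Adj i j → |E i j| ≤ √(E i i) * √(E j j) := by
    intro i j hij hG
    have h1 := (hQ {i, j} (by
      intro a ha b hb hab
      rcases ha with rfl | rfl <;> rcases hb with rfl | rfl
      · exact absurd rfl hab
      · exact hG
      · exact hG.symm
      · exact absurd rfl hab)).minor hE (i := i) (j := j) (by simp) (by simp) hij
    rw [← Real.sqrt_mul (hE0 i)]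
    exact Real.abs_le_sqrt h1
  refine ⟨fun i j => ?_, fun x => ?_⟩
  · show E i j * A i j = E j i * A j i
    rw [hE i j, hA.1.1 i j]
  · set sg : V → ℝ := fun i => if c i then 1 else -1 with hsg
    have h := hA.1.2 (fun i => sg i * (√(E i i) * |x i|))
    refine h.trans ?_
    simp only [qf]
    refine Finset.sum_le_sum fun i _ => Finset.sum_le_sum fun j _ => ?_
    by_cases hij : i = j
    · subst hij
      have hs1 : sg i * sg i = 1 := by
        simp only [hsg]; split_ifs <;> norm_num
      have e1 : sg i * (√(E i i) * |x i|) * A i i * (sg i * (√(E i i) * |x i|)) =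
          (sg i * sg i) * (√(E i i) * √(E i i)) * (|x i| * |x i|) * A i i := by ring
      rw [e1, hs1, Real.mul_self_sqrt (hE0 i), abs_mul_abs_self]
      apply le_of_eq; ring
    · by_cases hG : G.Adj i j
      · have hs1 : sg i * sg j = -1 := by
          have := hc i j hG
          simp only [hsg]
          cases h1 : c i <;> cases h2 : c j <;> simp_all
        have e1 : sg i * (√(E i i) * |x i|) * A i j * (sg j * (√(E j j) * |x j|)) =
            (sg i * sg j) * ((√(E i i) * √(E j j)) * (|x i| * |x j|) * A i j) := by ring
        rw [e1, hs1]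
        have h2 : |E i j| * (|x i| * |x j|) * A i j ≤
            (√(E i i) * √(E j j)) * (|x i| * |x j|) * A i j := by
          refine mul_le_mul_of_nonneg_right ?_ (hA.2.1 i j)
          exact mul_le_mul_of_nonneg_right (hEm i j hij hG) (by positivity)
        have h3 : -(|E i j| * (|x i| * |x j|) * A i j) ≤ x i * (E i j * A i j) * x j := by
          have e2 : x i * (E i j * A i j) * x j = (E i j * x i * x j) * A i j := by ring
          have e3 : |E i j| * (|x i| * |x j|) * A i j = |E i j * x i * x j| * A i j := by
            rw [abs_mul, abs_mul]; ring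
          rw [e2, e3, ← neg_mul]
          exact mul_le_mul_of_nonneg_right (neg_abs_le _) (hA.2.1 i j)
        linarith
      · rw [hA.2.2 i j hij hG]; simp

/-- the cone over a graph with property `Dec` has property `Dec` -/
theorem dec_cone {G : SimpleGraph V} (hG : Dec G) : Dec (cone G) := by
  classical
  intro A hA E hE hQ
  have hs : ∀ i j : Option V, E i j * A i j = E j i * A j i := fun i j => by
    rw [hE i j, hA.1.1 i j]
  have hEd : 0 ≤ E none none := (hQ {none} (by simp)).diag (Set.mem_singleton none)
  have hQ' : ∀ Q : Set V, G.IsClique Q → PsdOn (fun i j => E (some i) (some j)) Q := by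
    intro Q hQG x hx
    have := hQ _ (cone_isClique hQG) (fun o => o.elim 0 x) ?_
    · rw [qf_option E hE] at this
      simpa using this
    · rintro (_ | i) hi
      · rfl
      · exact hx i fun hiQ => hi (Or.inr ⟨i, hiQ, rfl⟩)
  rcases hEd.eq_or_lt with h0 | h0
  · -- `E none none = 0`: the row of `E` vanishes
    have hrow : ∀ i : V, E (some i) none = 0 := by
      intro i
      have h1 := (hQ ({none} ∪ some '' {i}) (cone_isClique (by simp))).minor hE
        (i := some i) (j := none) (by simp) (by simp) (by simp)
      rw [← h0, mul_zero] at h1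
      exact pow_eq_zero_iff (two_ne_zero) |>.1 (le_antisymm h1 (sq_nonneg _))
    refine psd_of_none_zero hs (by rw [← h0, zero_mul]) (fun i => by rw [hrow i, zero_mul]) ?_
    exact hG _ hA.block _ (fun i j => hE _ _) hQ'
  · rcases (hA.2.1 none none).eq_or_lt with h0' | h0'
    · refine psd_of_none_zero hs (by rw [← h0', mul_zero])
        (fun i => by rw [hA.1.none_zero h0'.symm i, mul_zero]) ?_
      exact hG _ hA.block _ (fun i j => hE _ _) hQ'
    · refine psd_of_schur hs (mul_pos h0 h0') ?_
      have h1 := hG _ hA.block (schur E) (fun i j => by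
        simp only [schur]; rw [hE (some i) (some j)]; ring) (fun Q hQG =>
          qf_psd_on_iff_some E hE Q (hQ _ (cone_isClique hQG)) h0)
      have h2 := (psd_rankOne (fun i : V => E (some i) none / √(E none none))).hadamard
        (psd_schur hA.1 h0')
      have e : schur (fun i j => E i j * A i j) =
          fun i j : V => (schur E i j * A (some i) (some j)) +
            (E (some i) none / √(E none none) * (E (some j) none / √(E none none))) *
              schur A i j := by
        funext i j
        simp only [schur]
        rw [div_mul_div_comm, Real.mul_self_sqrt h0.le]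
        field_simp
        ring
      rw [e]
      exact h1.add h2

/-- property `Dec` is invariant under isomorphism -/
theorem Dec.iso {G : SimpleGraph V} {H : SimpleGraph W} (hG : Dec G) (e : G ≃g H) : Dec H := by
  intro A hA E hE hQ
  have h1 : InPG G (fun i j => A (e i) (e j)) :=
    ⟨hA.1.submatrix e, fun i j => hA.2.1 _ _, fun i j hij hGij => hA.2.2 _ _
      (fun h => hij (e.injective h)) (fun h => hGij ((e.map_adj_iff).1 h))⟩
  have h2 := hG _ h1 (fun i j => E (e i) (e j)) (fun i j => hE _ _) ?_
  · have h3 := h2.submatrix (W := W) e.symm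
    simpa using h3
  · intro Q hQG x hx
    have h3 := hQ (e '' Q) ?_ (fun w => x (e.symm w)) ?_
    · have : qf E (fun w => x (e.symm w)) = qf (fun i j => E (e i) (e j)) x := by
        simp only [qf]
        rw [← e.toEquiv.sum_comp]
        refine Finset.sum_congr rfl fun i _ => ?_
        rw [← e.toEquiv.sum_comp]
        refine Finset.sum_congr rfl fun j _ => ?_
        simp
      rwa [this] at h3
    · rintro _ ⟨i, hi, rfl⟩ _ ⟨j, hj, rfl⟩ hij
      exact (e.map_adj_iff).2 (hQG hi hj fun h => hij (by rw [h]))
    · intro w hw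
      refine hx _ fun h => hw ⟨_, h, by simp⟩

/-- **Main inequality.** If `G` has property `Dec` and all cliques of `G` have at most `w`
vertices (`w ≥ 1`), then every power `β ≥ w` preserves positive semidefiniteness on the cone
over `G`. -/
theorem cone_pow {G : SimpleGraph V} (hG : Dec G) {w : ℕ} (hw1 : 1 ≤ w)
    (hw : ∀ Q : Finset V, G.IsClique Q → Q.card ≤ w) {β : ℝ} (hβ : (w : ℝ) ≤ β)
    (hblock : ∀ A, InPG G A → Psd (hpow A β))
    {A : Option V → Option V → ℝ} (hA : InPG (cone G) A) : Psd (hpow A β) := by
  classical
  have hw1' : (1 : ℝ) ≤ w := by exact_mod_cast hw1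
  refine psd_hpow_option hA.1 hA.2.1 β (fun _ => hblock _ hA.block) ?_
  intro k hk hMk
  set M : V → V → ℝ := fun i j => A (some i) (some j) with hM
  have hM0 : ∀ i j, 0 ≤ M i j := fun i j => hA.2.1 _ _
  have hsM : ∀ i j, M i j = M j i := fun i j => hA.1.1 _ _
  -- the matrix `E`
  set E : V → V → ℝ := fun i j => pw (β - 1) (M i j) - pw (β - 1) (k i) * pw (β - 1) (k j) with hE
  have hEs : ∀ i j, E i j = E j i := fun i j => by
    simp only [hE]; rw [hsM i j]; ring
  have hcl : ∀ Q : Set V, G.IsClique Q → PsdOn E Q := by
    intro Q hQ x hx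
    -- restrict to the clique
    let F : Finset V := Finset.univ.filter (· ∈ Q)
    have hFQ : ∀ i, i ∈ F ↔ i ∈ Q := fun i => by simp [F]
    have hcard : (Fintype.card F : ℝ) ≤ w := by
      rw [Fintype.card_coe]
      have : F.card ≤ w := hw F (by
        intro a ha b hb hab
        exact hQ ((hFQ a).1 (Finset.mem_coe.1 ha)) ((hFQ b).1 (Finset.mem_coe.1 hb)) hab)
      exact_mod_cast this
    have h1 := psd_pow_sub_of_card (V := F) (γ := β - 1) (by linarith) (by linarith)
      (fun i j => M i j) (fun i => k i) (fun i j => hM0 _ _) (fun i => hk _)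
      (hMk.submatrix (W := F) Subtype.val)
    have h2 := h1.2 (fun i => x i)
    have h3 : qf E x = qf (fun i j : F => pw (β - 1) (M i j) - pw (β - 1) (k i) *
        pw (β - 1) (k j)) (fun i => x i) := by
      simp only [qf]
      rw [Finset.sum_coe_sort F (fun i => ∑ j : F, x i * (pw (β - 1) (M i j) -
        pw (β - 1) (k i) * pw (β - 1) (k j)) * x j)]
      rw [← Finset.sum_subset (Finset.subset_univ F) (fun i _ hi => ?_)]
      · refine Finset.sum_congr rfl fun i _ => ?_
        rw [Finset.sum_coe_sort F (fun j => x i * (pw (β - 1) (M i j) -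
          pw (β - 1) (k i) * pw (β - 1) (k j)) * x j)]
        rw [← Finset.sum_subset (Finset.subset_univ F) (fun j _ hj => ?_)]
        rw [hx j (fun h => hj ((hFQ j).2 h))]; ring
      · refine Finset.sum_eq_zero fun j _ => ?_
        rw [hx i (fun h => hi ((hFQ i).2 h))]; ring
    rw [h3]; exact h2
  have h1 := hG M hA.block E hEs hcl
  have h2 := (psd_rankOne (fun i => pw (β - 1) (k i))).hadamard hMk
  have e : (fun i j => pw β (A (some i) (some j)) - pw β (k i) * pw β (k j)) =
      fun i j => (E i j * M i j) + (pw (β - 1) (k i) * pw (β - 1) (k j)) *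
        (A (some i) (some j) - k i * k j) := by
    funext i j
    simp only [hE, hM]
    rw [pw_add_one (hA.2.1 (some i) (some j)), pw_add_one (hk i), pw_add_one (hk j)]
    ring
  rw [e]
  exact h1.add h2

end Pool.Agent.Helper71.CE
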