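import Pool.Agent.Helper71.CE.Basic

/-!
# The FitzGerald–Horn theorem for complete graphs, and its cone form
-/

open Finset

namespace Pool.Agent.Helper71.CE

variable {V W : Type*} [Fintype V] [Fintype W]

/-- all powers `β ≥ 0`, `β ≥ |V| - 2` preserve positive semidefiniteness on `V` -/
def FHprop (V : Type*) [Fintype V] : Prop :=
  ∀ A : V → V → ℝ, Psd A → (∀ i j, 0 ≤ A i j) → ∀ β : ℝ, 0 ≤ β →
    (Fintype.card V : ℝ) - 2 ≤ β → Psd (hpow A β)

theorem hpow_symm {A : V → V → ℝ} (hA : Psd A) (β : ℝ) (i j : V) :
    hpow A β i j = hpow A β j i := by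
  simp only [hpow, hA.1 i j]

/-- derivative of the power of an affine function with nonnegative endpoints -/
theorem hasDerivAt_pw {β b m l : ℝ} (hb : 0 ≤ b) (hm : 0 ≤ m) (h0 : 0 < l) (h1 : l < 1) :
    HasDerivAt (fun l : ℝ => pw β ((1 - l) * b + l * m))
      (β * ((m - b) * pw (β - 1) ((1 - l) * b + l * m))) l := by
  rcases (add_nonneg hb hm).eq_or_lt with h | h
  · have hb0 : b = 0 := by linarith
    have hm0 : m = 0 := by linarith
    subst hb0; subst hm0
    simp only [mul_zero, add_zero, sub_zero, pw_zero]
    exact hasDerivAt_const _ _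
  · have hpos : ∀ t : ℝ, 0 < t → t < 1 → 0 < (1 - t) * b + t * m := by
      intro t ht ht'
      rcases hb.eq_or_lt with hb0 | hb0
      · have : 0 < m := by linarith
        have := mul_pos ht this
        have := mul_nonneg (sub_nonneg.2 ht'.le) hb
        linarith
      · have := mul_pos (sub_pos.2 ht') hb0
        have := mul_nonneg ht.le hm
        linarith
    have hd : HasDerivAt (fun t : ℝ => ((1 - t) * b + t * m)) (m - b) l := by
      have h1 : HasDerivAt (fun t : ℝ => (1 - t) * b) (-1 * b) l := by
        have := ((hasDerivAt_id l).const_sub 1).mul_const b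
        simpa using this
      have h2 : HasDerivAt (fun t : ℝ => t * m) (1 * m) l := by
        simpa using (hasDerivAt_id l).mul_const m
      exact (h1.fun_add h2).congr_deriv (by ring)
    have hp := hpos l h0 h1
    have hr := hd.rpow_const (p := β) (Or.inl hp.ne')
    have heq : (fun t : ℝ => pw β ((1 - t) * b + t * m)) =ᶠ[nhds l]
        (fun t : ℝ => ((1 - t) * b + t * m) ^ β) := by
      filter_upwards [Ioo_mem_nhds h0 h1] with t ht
      exact pw_of_pos (hpos t ht.1 ht.2)
    rw [pw_of_pos hp]
    refine (hr.congr_of_eventuallyEq heq).congr_deriv ?_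
    ring

/-- The key inequality: if `M ≥ k kᵀ` and the power `γ` preserves positive semidefiniteness on
`V`, then `M ^ (γ+1) ≥ k ^ (γ+1) k ^ (γ+1)ᵀ`. -/
theorem psd_pow_sub {β : ℝ} (hβ : 1 ≤ β)
    (hpres : ∀ A : V → V → ℝ, Psd A → (∀ i j, 0 ≤ A i j) → Psd (hpow A (β - 1)))
    (M : V → V → ℝ) (k : V → ℝ) (hM0 : ∀ i j, 0 ≤ M i j) (hk0 : ∀ i, 0 ≤ k i)
    (hMk : Psd (fun i j => M i j - k i * k j)) :
    Psd (fun i j => pw β (M i j) - pw β (k i) * pw β (k j)) := by
  have hsM : ∀ i j, M i j = M j i := fun i j => by
    have : M i j - k i * k j = M j i - k j * k i := hMk.1 i j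
    linarith [mul_comm (k i) (k j)]
  refine ⟨fun i j => by
    show pw β (M i j) - pw β (k i) * pw β (k j) = pw β (M j i) - pw β (k j) * pw β (k i)
    rw [hsM i j, mul_comm (pw β (k i))], fun x => ?_⟩
  -- the path
  set φ : ℝ → ℝ := fun l => ∑ i, ∑ j, x i * pw β ((1 - l) * (k i * k j) + l * M i j) * x j with hφ
  have hφ1 : φ 1 = ∑ i, ∑ j, x i * pw β (M i j) * x j := by simp [hφ]
  have hφ0 : φ 0 = ∑ i, ∑ j, x i * (pw β (k i) * pw β (k j)) * x j := by
    simp only [hφ]
    refine Finset.sum_congr rfl fun i _ => Finset.sum_congr rfl fun j _ => ?_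
    rw [← pw_mul (hk0 i) (hk0 j)]
    simp
  have hcont : ContinuousOn φ (Set.Icc 0 1) := by
    refine continuousOn_finsetSum _ fun i _ => continuousOn_finsetSum _ fun j _ => ?_
    refine ContinuousOn.mul (ContinuousOn.mul continuousOn_const ?_) continuousOn_const
    refine (pw_continuousOn (by linarith : (0 : ℝ) < β)).comp (by fun_prop) ?_
    intro t ht
    exact add_nonneg (mul_nonneg (sub_nonneg.2 ht.2) (mul_nonneg (hk0 i) (hk0 j)))
      (mul_nonneg ht.1 (hM0 i j))
  have hder : ∀ l ∈ Set.Ioo (0 : ℝ) 1, HasDerivAt φ
      (β * ∑ i, ∑ j, x i * ((M i j - k i * k j) *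
        pw (β - 1) ((1 - l) * (k i * k j) + l * M i j)) * x j) l := by
    intro l hl
    rw [Finset.mul_sum]
    refine HasDerivAt.fun_sum fun i _ => ?_
    rw [Finset.mul_sum]
    refine HasDerivAt.fun_sum fun j _ => ?_
    have := (hasDerivAt_pw (β := β) (mul_nonneg (hk0 i) (hk0 j)) (hM0 i j) hl.1 hl.2)
    exact ((this.const_mul (x i)).mul_const (x j)).congr_deriv (by ring)
  have hmono : MonotoneOn φ (Set.Icc 0 1) := by
    refine monotoneOn_of_deriv_nonneg (convex_Icc 0 1) hcont ?_ ?_
    · rw [interior_Icc]
      intro l hl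
      exact (hder l hl).differentiableAt.differentiableWithinAt
    · rw [interior_Icc]
      intro l hl
      rw [(hder l hl).deriv]
      refine mul_nonneg (by linarith) ?_
      have hpath : Psd (fun i j => (1 - l) * (k i * k j) + l * M i j) := by
        have h1 := psd_rankOne k
        have e : (fun i j => (1 - l) * (k i * k j) + l * M i j) =
            (fun i j => k i * k j + l * (M i j - k i * k j)) := by
          funext i j; ring
        rw [e]
        refine h1.add ⟨fun i j => ?_, fun y => ?_⟩
        · show l * (M i j - k i * k j) = l * (M j i - k j * k i)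
          rw [hsM i j, mul_comm (k i)]
        · have := hMk.2 y
          have e2 : qf (fun i j => l * (M i j - k i * k j)) y =
              l * qf (fun i j => M i j - k i * k j) y := by
            simp only [qf, Finset.mul_sum]
            refine Finset.sum_congr rfl fun i _ => Finset.sum_congr rfl fun j _ => by ring
          rw [e2]
          exact mul_nonneg hl.1.le this
      have hpos : ∀ i j, 0 ≤ (1 - l) * (k i * k j) + l * M i j := fun i j =>
        add_nonneg (mul_nonneg (sub_nonneg.2 hl.2.le) (mul_nonneg (hk0 i) (hk0 j)))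
          (mul_nonneg hl.1.le (hM0 i j))
      have h2 := hpres _ hpath hpos
      exact (hMk.hadamard h2).2 x
  have hle := hmono (Set.left_mem_Icc.2 zero_le_one) (Set.right_mem_Icc.2 zero_le_one) zero_le_one
  have : qf (fun i j => pw β (M i j) - pw β (k i) * pw β (k j)) x = φ 1 - φ 0 := by
    rw [hφ1, hφ0]
    simp only [qf, ← Finset.sum_sub_distrib]
    refine Finset.sum_congr rfl fun i _ => Finset.sum_congr rfl fun j _ => by ring
  rw [this]
  linarith

/-- reduction of a power of a matrix on `Option V` to its Schur complement -/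
theorem psd_hpow_option {A : Option V → Option V → ℝ} (hA : Psd A)
    (hA0 : ∀ i j, 0 ≤ A i j) (β : ℝ)
    (hblock : A none none = 0 → Psd (hpow (fun i j => A (some i) (some j)) β))
    (hschur : ∀ k : V → ℝ, (∀ i, 0 ≤ k i) →
      Psd (fun i j => A (some i) (some j) - k i * k j) →
      Psd (fun i j => pw β (A (some i) (some j)) - pw β (k i) * pw β (k j))) :
    Psd (hpow A β) := by
  rcases (hA0 none none).eq_or_lt with h0 | h0
  · refine psd_of_none_zero (hpow_symm hA β) ?_ ?_ (hblock h0.symm)
    · simp only [hpow, ← h0, pw_zero]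
    · intro i
      simp only [hpow, hA.none_zero h0.symm i, pw_zero]
  · refine psd_of_schur (hpow_symm hA β) (pw_pos h0) ?_
    have hr : 0 < √(A none none) := Real.sqrt_pos.2 h0
    have hsq : √(A none none) * √(A none none) = A none none := Real.mul_self_sqrt h0.le
    have key := hschur (fun i => A (some i) none / √(A none none))
      (fun i => div_nonneg (hA0 _ _) hr.le) ?_
    · have e : schur (hpow A β) = fun i j => pw β (A (some i) (some j)) -
          pw β (A (some i) none / √(A none none)) * pw β (A (some j) none / √(A none none)) := by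
        funext i j
        simp only [hpow, schur]
        rw [pw_div (hA0 _ _) hr, pw_div (hA0 _ _) hr, div_mul_div_comm, ← pw_mul hr.le hr.le, hsq]
      rw [e]
      exact key
    · have e : schur A = fun i j => A (some i) (some j) -
          A (some i) none / √(A none none) * (A (some j) none / √(A none none)) := by
        funext i j
        simp only [schur]
        rw [div_mul_div_comm, hsq]
      have := psd_schur hA h0
      rw [e] at this
      exact this

/-- **FitzGerald–Horn**: for positive semidefinite matrices of size `n` with nonnegative entries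
every power `β ≥ max(0, n-2)` is positive semidefinite. -/
theorem fitzGerald_horn (V : Type*) [Fintype V] : FHprop V := by
  classical
  refine Fintype.induction_empty_option (P := fun V _ => FHprop V) ?_ ?_ ?_ V
  · -- equivalence
    intro α β _ e h A hA hA0 b hb hc
    let : Fintype α := Fintype.ofEquiv β e.symm
    have h1 := h (fun i j => A (e i) (e j)) (by
      have := hA.submatrix (W := α) e
      exact this) (fun i j => hA0 _ _) b hb (by
        rwa [Fintype.card_congr e])
    have h2 := h1.submatrix (W := β) e.symm
    have e2 : (fun i j : β => hpow (fun i j => A (e i) (e j)) b (e.symm i) (e.symm j)) =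
        hpow A b := by
      funext i j
      simp [hpow]
    rw [e2] at h2
    exact h2
  · -- empty
    intro A hA hA0 b hb hc
    exact ⟨fun i => i.elim, fun x => by simp [qf]⟩
  · -- option
    intro V _ ih A hA hA0 β hβ hc
    rw [Fintype.card_option] at hc
    push_cast at hc
    refine psd_hpow_option hA hA0 β (fun _ => ?_) ?_
    · exact ih _ (hA.submatrix some) (fun i j => hA0 _ _) β hβ (by linarith)
    · intro k hk hMk
      rcases le_or_gt (Fintype.card V) 1 with hcard | hcard
      · -- at most one other vertex
        have : Subsingleton V := Fintype.card_le_one_iff_subsingleton.1 hcard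
        refine ⟨fun i j => by rw [Subsingleton.elim i j], fun x => ?_⟩
        refine Finset.sum_nonneg fun i _ => Finset.sum_nonneg fun j _ => ?_
        have hij : i = j := Subsingleton.elim i j
        subst hij
        have h1 : 0 ≤ A (some i) (some i) - k i * k i := hMk.diag_nonneg i
        have h2 : pw β (k i) * pw β (k i) ≤ pw β (A (some i) (some i)) := by
          rw [← pw_mul (hk i) (hk i)]
          exact pw_mono hβ (mul_nonneg (hk i) (hk i)) (by linarith)
        have : x i * (pw β (A (some i) (some i)) - pw β (k i) * pw β (k i)) * x i =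
          x i ^ 2 * (pw β (A (some i) (some i)) - pw β (k i) * pw β (k i)) := by ring
        rw [this]
        exact mul_nonneg (sq_nonneg _) (by linarith)
      · have h2 : (2 : ℝ) ≤ Fintype.card V := by exact_mod_cast hcard
        refine psd_pow_sub (by linarith) (fun B hB hB0 => ih B hB hB0 _ (by linarith)
          (by linarith)) _ k (fun i j => hA0 _ _) hk hMk

/-- cone form: `M ≥ k kᵀ` on `n` points and `γ ≥ n-1` give `M^γ ≥ k^γ k^γᵀ` -/
theorem psd_pow_sub_of_card {γ : ℝ} (hγ0 : 0 ≤ γ) (hγ : (Fintype.card V : ℝ) - 1 ≤ γ)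
    (M : V → V → ℝ) (k : V → ℝ) (hM0 : ∀ i j, 0 ≤ M i j) (hk0 : ∀ i, 0 ≤ k i)
    (hMk : Psd (fun i j => M i j - k i * k j)) :
    Psd (fun i j => pw γ (M i j) - pw γ (k i) * pw γ (k j)) := by
  classical
  -- the matrix on `Option V`
  let A : Option V → Option V → ℝ := fun a b =>
    a.elim (b.elim 1 k) (fun i => b.elim (k i) (M i))
  have hsM : ∀ i j, M i j = M j i := fun i j => by
    have : M i j - k i * k j = M j i - k j * k i := hMk.1 i j
    linarith [mul_comm (k i) (k j)]
  have hA : Psd A := by
    refine psd_of_schur ?_ (by show (0 : ℝ) < 1; norm_num) ?_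
    · rintro (_ | i) (_ | j)
      · rfl
      · rfl
      · rfl
      · exact hsM i j
    · have e : schur A = fun i j => M i j - k i * k j := by
        funext i j
        simp [schur, A]
      rw [e]
      exact hMk
  have hA0 : ∀ i j, 0 ≤ A i j := by
    rintro (_ | i) (_ | j)
    · show (0 : ℝ) ≤ 1; norm_num
    · exact hk0 j
    · exact hk0 i
    · exact hM0 i j
  have h := fitzGerald_horn (Option V) A hA hA0 γ hγ0 (by
    rw [Fintype.card_option]; push_cast; linarith)
  have h2 := psd_schur h (by show 0 < pw γ (1 : ℝ); exact pw_pos one_pos)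
  have e : schur (hpow A γ) = fun i j => pw γ (M i j) - pw γ (k i) * pw γ (k j) := by
    funext i j
    simp [schur, hpow, A, pw_of_pos]
  rw [e] at h2
  exact h2

end Pool.Agent.Helper71.CE
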