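import Pool.Agent.Helper71.CE.Dec

/-!
# Joins of a complete graph and a bipartite graph
-/

open Finset

namespace Pool.Agent.Helper71.CE

/-- the join `K_m ∨ B` of the complete graph on `m` vertices and a graph `B` -/
def join (m : ℕ) {V : Type*} (B : SimpleGraph V) : SimpleGraph (Fin m ⊕ V) where
  Adj a b := a ≠ b ∧ ∀ i j, a = Sum.inr i → b = Sum.inr j → B.Adj i j
  symm := ⟨fun _ _ h => ⟨h.1.symm, fun i j hi hj => (h.2 j i hj hi).symm⟩⟩
  loopless := ⟨fun _ h => h.1 rfl⟩

theorem join_adj_inr {m : ℕ} {V : Type*} {B : SimpleGraph V} {i j : V} :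
    (join m B).Adj (Sum.inr i) (Sum.inr j) ↔ B.Adj i j := by
  constructor
  · intro h; exact h.2 i j rfl rfl
  · intro h
    refine ⟨fun e => h.ne (Sum.inr_injective e), fun a b ha hb => ?_⟩
    rw [← Sum.inr_injective ha, ← Sum.inr_injective hb]; exact h

theorem join_adj_inl {m : ℕ} {V : Type*} {B : SimpleGraph V} {i : Fin m} {b : Fin m ⊕ V} :
    (join m B).Adj (Sum.inl i) b ↔ Sum.inl i ≠ b :=
  ⟨fun h => h.1, fun h => ⟨h, fun a c ha => by cases ha⟩⟩

/-- vertices of the join with one more dominating vertex -/
def joinEquiv (m : ℕ) (V : Type*) : Option (Fin m ⊕ V) ≃ Fin (m + 1) ⊕ V where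
  toFun a := match a with
    | none => Sum.inl 0
    | some (Sum.inl i) => Sum.inl i.succ
    | some (Sum.inr v) => Sum.inr v
  invFun b := match b with
    | Sum.inl i => Fin.cases none (fun i => some (Sum.inl i)) i
    | Sum.inr v => some (Sum.inr v)
  left_inv a := by
    rcases a with _ | (i | v)
    · rfl
    · rfl
    · rfl
  right_inv b := by
    rcases b with i | v
    · refine Fin.cases ?_ (fun i => ?_) i
      · rfl
      · rfl
    · rfl

/-- `K_{m+1} ∨ B` is the cone over `K_m ∨ B` -/
def joinIso (m : ℕ) {V : Type*} (B : SimpleGraph V) : cone (join m B) ≃g join (m + 1) B where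
  toEquiv := joinEquiv m V
  map_rel_iff' := by
    rintro a b
    constructor
    · intro h
      refine ⟨fun e => h.1 (by rw [e]), ?_⟩
      rintro i hi j hj
      rw [Option.mem_def] at hi hj
      subst hi; subst hj
      refine ⟨fun e => h.1 (by rw [e]), ?_⟩
      rintro u v rfl rfl
      exact h.2 u v rfl rfl
    · intro h
      refine ⟨fun e => h.1 ((joinEquiv m V).injective e), ?_⟩
      rintro u v hu hv
      have ha : a = some (Sum.inr u) := by
        rw [← (joinEquiv m V).symm_apply_apply a, hu]; rfl
      have hb : b = some (Sum.inr v) := by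
        rw [← (joinEquiv m V).symm_apply_apply b, hv]; rfl
      subst ha; subst hb
      exact (h.2 _ rfl _ rfl).2 u v rfl rfl

variable {V : Type*} [Fintype V]

/-- joins of complete graphs and bipartite graphs have property `Dec` -/
theorem dec_join {B : SimpleGraph V} (c : V → Bool) (hc : ∀ i j, B.Adj i j → c i ≠ c j) (m : ℕ) :
    Dec (join m B) := by
  induction m with
  | zero =>
    refine dec_bipartite (fun a => a.elim (fun _ => true) c) ?_
    rintro (i | i) (j | j) h
    · exact i.elim0
    · exact i.elim0
    · exact j.elim0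
    · exact hc i j (join_adj_inr.1 h)
  | succ m ih => exact (dec_cone ih).iso (joinIso m B)

/-- cliques of `K_m ∨ B` have at most `m + 2` vertices -/
theorem join_clique {B : SimpleGraph V} (c : V → Bool) (hc : ∀ i j, B.Adj i j → c i ≠ c j) (m : ℕ)
    (Q : Finset (Fin m ⊕ V)) (hQ : (join m B).IsClique Q) : Q.card ≤ m + 2 := by
  classical
  have hinj : Set.InjOn (fun a : Fin m ⊕ V => (a.elim Sum.inl (fun v => Sum.inr (c v)) :
      Fin m ⊕ Bool)) (Q : Set (Fin m ⊕ V)) := by
    rintro (i | i) hi (j | j) hj hij
    · simpa using hij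
    · simp at hij
    · simp at hij
    · by_contra hne
      have := hQ hi hj hne
      exact hc i j (join_adj_inr.1 this) (by simpa using hij)
  have := Finset.card_le_card_of_injOn _ (fun a _ => Finset.mem_univ _) hinj
  simpa using this

theorem InPG.iso {W : Type*} [Fintype W] {G : SimpleGraph V} {H : SimpleGraph W} (e : G ≃g H)
    {A : W → W → ℝ} (hA : InPG H A) : InPG G (fun i j => A (e i) (e j)) :=
  ⟨hA.1.submatrix e, fun i j => hA.2.1 _ _, fun i j hij hGij => hA.2.2 _ _
      (fun h => hij (e.injective h)) (fun h => hGij ((e.map_adj_iff).1 h))⟩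

/-- all powers `β ≥ m + 1` preserve positive semidefiniteness on `K_m ∨ B`, `B` bipartite -/
theorem join_pow {B : SimpleGraph V} (c : V → Bool) (hc : ∀ i j, B.Adj i j → c i ≠ c j) (m : ℕ)
    {β : ℝ} (hβ : (m : ℝ) + 1 ≤ β) {A : Fin m ⊕ V → Fin m ⊕ V → ℝ} (hA : InPG (join m B) A) :
    Psd (hpow A β) := by
  induction m with
  | zero =>
    -- `A^β = A^(β-1) ∘ A`
    have hβ1 : (1 : ℝ) ≤ β := by simpa using hβ
    have h := dec_join c hc 0 A hA (hpow A (β - 1)) (fun i j => by
      simp only [hpow, hA.1.1 i j]) ?_
    · have e : (fun i j => hpow A (β - 1) i j * A i j) = hpow A β := by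
        funext i j
        simp only [hpow]
        rw [← pw_add_one (hA.2.1 i j)]
      rwa [e] at h
    · intro Q hQ x hx
      -- a clique has at most two vertices
      classical
      let F : Finset (Fin 0 ⊕ V) := Finset.univ.filter (· ∈ Q)
      have hFQ : ∀ i, i ∈ F ↔ i ∈ Q := fun i => by simp [F]
      have hcard : (Fintype.card F : ℝ) ≤ 2 := by
        rw [Fintype.card_coe]
        have : F.card ≤ 0 + 2 := join_clique c hc 0 F (by
          intro a ha b hb hab
          exact hQ ((hFQ a).1 (Finset.mem_coe.1 ha)) ((hFQ b).1 (Finset.mem_coe.1 hb)) hab)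
        exact_mod_cast this
      have h1 := fitzGerald_horn F (fun i j => A i j) (hA.1.submatrix (W := F) Subtype.val)
        (fun i j => hA.2.1 _ _) (β - 1) (by linarith) (by linarith)
      have h2 := h1.2 (fun i => x i)
      have h3 : qf (hpow A (β - 1)) x = qf (hpow (fun i j : F => A i j) (β - 1))
          (fun i => x i) := by
        simp only [qf, hpow]
        rw [Finset.sum_coe_sort F (fun i => ∑ j : F, x i * pw (β - 1) (A i j) * x j)]
        rw [← Finset.sum_subset (Finset.subset_univ F) (fun i _ hi => ?_)]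
        · refine Finset.sum_congr rfl fun i _ => ?_
          rw [Finset.sum_coe_sort F (fun j => x i * pw (β - 1) (A i j) * x j)]
          rw [← Finset.sum_subset (Finset.subset_univ F) (fun j _ hj => ?_)]
          rw [hx j (fun h => hj ((hFQ j).2 h))]; ring
        · refine Finset.sum_eq_zero fun j _ => ?_
          rw [hx i (fun h => hi ((hFQ i).2 h))]; ring
      rw [h3]; exact h2
  | succ m ih =>
    push_cast at hβ
    have hA' := hA.iso (joinIso m B)
    have h := cone_pow (dec_join c hc m) (w := m + 2) (by omega)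
      (fun Q hQ => join_clique c hc m Q hQ) (β := β) (by push_cast; linarith)
      (fun A hA => ih (by linarith) hA) hA'
    have h2 := h.submatrix (W := Fin (m + 1) ⊕ V) (joinIso m B).symm
    have e : (fun i j => hpow (fun i j => A ((joinIso m B) i) ((joinIso m B) j)) β
        ((joinIso m B).symm i) ((joinIso m B).symm j)) = hpow A β := by
      funext i j
      simp [hpow]
    rw [e] at h2
    exact h2

end Pool.Agent.Helper71.CE
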