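import Pool.Agent.Helper71.CE.Lower

/-!
# Critical exponents of joins of complete and bipartite graphs
-/

open Finset

namespace Pool.Agent.Helper71.CE

variable {V : Type*} [Fintype V]

/-- exponents in `(m, m+1)` fail for `K_m ∨ B` as soon as `B` has a vertex with two
non-adjacent neighbours -/
theorem join_fail (m : ℕ) {B : SimpleGraph V} {x y v : V} (hxy : x ≠ y) (hxv : B.Adj x v)
    (hyv : B.Adj y v) {β : ℝ} (h1 : (m : ℝ) < β) (h2 : β < m + 1) :
    ∃ A, InPG (join m B) A ∧ ¬ Psd (hpow A β) := by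
  classical
  obtain ⟨s, hs0, hs⟩ := exists_not_psd h1 h2
  -- positions of the clique `K_m + v`
  let q : Fin (m + 1) → Fin m ⊕ V := fun i =>
    if h : (i : ℕ) < m then Sum.inl ⟨i, h⟩ else Sum.inr v
  have hq : ∀ i, (∃ l, q i = Sum.inl l) ∨ q i = Sum.inr v := by
    intro i
    by_cases h : (i : ℕ) < m
    · exact Or.inl ⟨⟨i, h⟩, by simp [q, h]⟩
    · exact Or.inr (by simp [q, h])
  have hqi : Function.Injective q := by
    intro i j hij
    by_cases hi : (i : ℕ) < m <;> by_cases hj : (j : ℕ) < m
    · simp only [q, hi, hj, dif_pos] at hij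
      have := Sum.inl_injective hij
      ext; simpa using this
    · simp only [q, hi, hj, dif_pos] at hij
      simp at hij
    · simp only [q, hi, hj, dif_pos] at hij
      simp at hij
    · ext; omega
  have hxv' : x ≠ v := hxv.ne
  have hyv' : y ≠ v := hyv.ne
  have hqx : ∀ i, q i ≠ Sum.inr x := by
    intro i
    rcases hq i with ⟨l, hl⟩ | hl <;> rw [hl]
    · simp
    · simpa using hxv'.symm
  have hqy : ∀ i, q i ≠ Sum.inr y := by
    intro i
    rcases hq i with ⟨l, hl⟩ | hl <;> rw [hl]
    · simp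
    · simpa using hyv'.symm
  -- the two vectors
  let a : Fin m ⊕ V → ℝ := fun p => if p = Sum.inr x then 1 else ∑ i, if q i = p then 1 else 0
  let b : Fin m ⊕ V → ℝ := fun p => if p = Sum.inr y then 1 else ∑ i, if q i = p then s i else 0
  have ha0 : ∀ p, 0 ≤ a p := by
    intro p
    simp only [a]
    split_ifs
    · norm_num
    · exact Finset.sum_nonneg fun i _ => by split_ifs <;> norm_num
  have hb0 : ∀ p, 0 ≤ b p := by
    intro p
    simp only [b]
    split_ifs
    · norm_num
    · exact Finset.sum_nonneg fun i _ => by split_ifs <;> [exact (hs0 i).le; exact le_rfl]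
  have haq : ∀ i, a (q i) = 1 := by
    intro i
    simp only [a, if_neg (hqx i)]
    rw [Finset.sum_eq_single i]
    · simp
    · intro j _ hj
      rw [if_neg fun h => hj (hqi h)]
    · simp
  have hbq : ∀ i, b (q i) = s i := by
    intro i
    simp only [b, if_neg (hqy i)]
    rw [Finset.sum_eq_single i]
    · simp
    · intro j _ hj
      rw [if_neg fun h => hj (hqi h)]
    · simp
  have hax : a (Sum.inr x) = 1 := by simp [a]
  have hby : b (Sum.inr y) = 1 := by simp [b]
  have hay : a (Sum.inr y) = 0 := by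
    simp only [a]
    rw [if_neg (by simpa using hxy.symm)]
    exact Finset.sum_eq_zero fun i _ => if_neg (hqy i)
  have hbx : b (Sum.inr x) = 0 := by
    simp only [b]
    rw [if_neg (by simpa using hxy)]
    exact Finset.sum_eq_zero fun i _ => if_neg (hqx i)
  -- vanishing away from the chosen vertices
  have hsupp : ∀ p, (∀ i, q i ≠ p) → p ≠ Sum.inr x → p ≠ Sum.inr y → a p = 0 ∧ b p = 0 := by
    intro p hp hpx hpy
    simp only [a, b, if_neg hpx, if_neg hpy]
    exact ⟨Finset.sum_eq_zero fun i _ => if_neg (hp i),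
      Finset.sum_eq_zero fun i _ => if_neg (hp i)⟩
  -- adjacency inside
  have hadjq : ∀ i p, q i ≠ p → (p = Sum.inr x ∨ p = Sum.inr y ∨ ∃ j, q j = p) →
      (join m B).Adj (q i) p := by
    intro i p hne hp
    rcases hq i with ⟨l, hl⟩ | hl
    · rw [hl] at hne ⊢
      exact join_adj_inl.2 hne
    · rcases hp with rfl | rfl | ⟨j, rfl⟩
      · rw [hl]; exact join_adj_inr.2 hxv.symm
      · rw [hl]; exact join_adj_inr.2 hyv.symm
      · rcases hq j with ⟨l, hl'⟩ | hl'
        · rw [hl', hl]; exact (join_adj_inl.2 (by simp)).symm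
        · exact absurd (hl.trans hl'.symm) hne
  let A : Fin m ⊕ V → Fin m ⊕ V → ℝ := fun p r => a p * a r + b p * b r
  have hApsd : Psd A := (psd_rankOne a).add (psd_rankOne b)
  have hA0 : ∀ p r, 0 ≤ A p r := fun p r =>
    add_nonneg (mul_nonneg (ha0 p) (ha0 r)) (mul_nonneg (hb0 p) (hb0 r))
  have hpat : ∀ p r, p ≠ r → ¬ (join m B).Adj p r → A p r = 0 := by
    intro p r hpr hnadj
    show a p * a r + b p * b r = 0
    by_cases hp : ∃ i, q i = p
    · obtain ⟨i, rfl⟩ := hp
      by_cases hr : r = Sum.inr x ∨ r = Sum.inr y ∨ ∃ j, q j = r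
      · exact absurd (hadjq i r hpr hr) hnadj
      · push Not at hr
        obtain ⟨e1, e2⟩ := hsupp r hr.2.2 hr.1 hr.2.1
        rw [e1, e2]; ring
    · push Not at hp
      by_cases hr : ∃ j, q j = r
      · obtain ⟨j, rfl⟩ := hr
        by_cases hp' : p = Sum.inr x ∨ p = Sum.inr y
        · refine absurd (hadjq j p hpr.symm ?_).symm hnadj
          rcases hp' with h | h
          · exact Or.inl h
          · exact Or.inr (Or.inl h)
        · push Not at hp'
          obtain ⟨e1, e2⟩ := hsupp p hp hp'.1 hp'.2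
          rw [e1, e2]; ring
      · push Not at hr
        by_cases hpx : p = Sum.inr x
        · subst hpx
          by_cases hry : r = Sum.inr y
          · subst hry; rw [hay, hbx]; ring
          · obtain ⟨e1, e2⟩ := hsupp r hr hpr.symm hry
            rw [e1, e2]; ring
        · by_cases hpy : p = Sum.inr y
          · subst hpy
            by_cases hrx : r = Sum.inr x
            · subst hrx; rw [hay, hbx]; ring
            · obtain ⟨e1, e2⟩ := hsupp r hr hrx hpr.symm
              rw [e1, e2]; ring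
          · obtain ⟨e1, e2⟩ := hsupp p hp hpx hpy
            rw [e1, e2]; ring
  refine ⟨A, ⟨hApsd, hA0, hpat⟩, fun hpsd => hs ?_⟩
  -- two Schur complements
  let e : Option (Option (Fin (m + 1))) → Fin m ⊕ V := fun o =>
    o.elim (Sum.inr x) (fun o' => o'.elim (Sum.inr y) q)
  have hβ0 : 0 < β := lt_of_le_of_lt (Nat.cast_nonneg m) h1
  have p1 : pw β 1 = 1 := by rw [pw_of_pos one_pos, Real.one_rpow]
  have hxx : hpow A β (Sum.inr x) (Sum.inr x) = 1 := by
    show pw β (a _ * a _ + b _ * b _) = 1
    rw [hax, hbx]; simpa using p1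
  have hyy : hpow A β (Sum.inr y) (Sum.inr y) = 1 := by
    show pw β (a _ * a _ + b _ * b _) = 1
    rw [hay, hby]; simpa using p1
  have hyx : hpow A β (Sum.inr y) (Sum.inr x) = 0 := by
    show pw β (a _ * a _ + b _ * b _) = 0
    rw [hay, hbx]; simp [pw]
  have hqx' : ∀ i, hpow A β (q i) (Sum.inr x) = 1 := by
    intro i
    show pw β (a _ * a _ + b _ * b _) = 1
    rw [haq, hax, hbx]; simpa using p1
  have hqy' : ∀ i, hpow A β (q i) (Sum.inr y) = s i ^ β := by
    intro i
    show pw β (a _ * a _ + b _ * b _) = _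
    rw [hay, hbq, hby, mul_zero, zero_add, mul_one, pw_of_pos (hs0 i)]
  have hqq' : ∀ i j, hpow A β (q i) (q j) = (1 + s i * s j) ^ β := by
    intro i j
    show pw β (a _ * a _ + b _ * b _) = _
    rw [haq, haq, hbq, hbq, mul_one]
    exact pw_of_pos (by have := mul_pos (hs0 i) (hs0 j); linarith)
  have h3 := hpsd.submatrix (W := Option (Option (Fin (m + 1)))) e
  have h4 := psd_schur h3 (by show 0 < hpow A β (Sum.inr x) (Sum.inr x); rw [hxx]; norm_num)
  have e0 : schur (fun i j => hpow A β (e i) (e j)) none none = 1 := by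
    show hpow A β (Sum.inr y) (Sum.inr y) - hpow A β (Sum.inr y) (Sum.inr x) *
      hpow A β (Sum.inr y) (Sum.inr x) / hpow A β (Sum.inr x) (Sum.inr x) = 1
    rw [hyy, hyx, hxx]; norm_num
  have h5 := psd_schur h4 (by rw [e0]; norm_num)
  have e1 : schur (schur (fun i j => hpow A β (e i) (e j))) =
      fun i j => (1 + s i * s j) ^ β - 1 - s i ^ β * s j ^ β := by
    funext i j
    show schur (fun i j => hpow A β (e i) (e j)) (some i) (some j) -
      schur (fun i j => hpow A β (e i) (e j)) (some i) none *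
      schur (fun i j => hpow A β (e i) (e j)) (some j) none /
      schur (fun i j => hpow A β (e i) (e j)) none none = _
    rw [e0]
    show (hpow A β (q i) (q j) - hpow A β (q i) (Sum.inr x) * hpow A β (q j) (Sum.inr x) /
        hpow A β (Sum.inr x) (Sum.inr x)) -
      (hpow A β (q i) (Sum.inr y) - hpow A β (q i) (Sum.inr x) * hpow A β (Sum.inr y) (Sum.inr x) /
        hpow A β (Sum.inr x) (Sum.inr x)) *
      (hpow A β (q j) (Sum.inr y) - hpow A β (q j) (Sum.inr x) * hpow A β (Sum.inr y) (Sum.inr x) /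
        hpow A β (Sum.inr x) (Sum.inr x)) / 1 = _
    rw [hqq', hqx', hqx', hqy', hqy', hyx, hxx]
    ring
  rw [e1] at h5
  exact h5

end Pool.Agent.Helper71.CE
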